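import Pool.Agent.Helper76.CY.Lin

/-!
# The ideal of the chart of the Fano scheme of planes

Project CY, piece CY-14: points of the chart with vanishing trilinear values kill the ideal, the
trilinear values of the rows of the generic matrix lie in the ideal, and the ideal does not change
if the cubic is multiplied by a nonzero constant.
-/

namespace Pool.Agent.Helper93.CY

open MvPolynomial Pool.Agent.Helper76.CY

theorem aeval_cubic {K : Type*} [Field K] {S : Type*} [CommRing S] [Algebra K S] (D : Ten K)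
    (x : Fin 10 → S) : aeval x (cubic D) = tri D x x x := by
  simp only [cubic, tri, map_sum, map_mul, aeval_X, algHom_C]

theorem tri_sum_left {K : Type*} [Field K] {S : Type*} [CommRing S] [Algebra K S] (D : Ten K)
    (x : Fin 3 → Fin 10 → S) (y z : Fin 10 → S) :
    tri D (∑ i, x i) y z = ∑ i, tri D (x i) y z := by
  simp only [Fin.sum_univ_three, tri_add_left]

theorem tri_sum_mid {K : Type*} [Field K] {S : Type*} [CommRing S] [Algebra K S] (D : Ten K)
    (x : Fin 3 → Fin 10 → S) (y z : Fin 10 → S) :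
    tri D y (∑ i, x i) z = ∑ i, tri D y (x i) z := by
  simp only [Fin.sum_univ_three, tri_add_mid]

theorem tri_sum_right {K : Type*} [Field K] {S : Type*} [CommRing S] [Algebra K S] (D : Ten K)
    (x : Fin 3 → Fin 10 → S) (y z : Fin 10 → S) :
    tri D y z (∑ i, x i) = ∑ i, tri D y z (x i) := by
  simp only [Fin.sum_univ_three, tri_add_right]

/-- If the trilinear form vanishes on all triples of rows, then the cubic vanishes on all their
combinations. -/
theorem tri_comb_zero {K : Type*} [Field K] {S : Type*} [CommRing S] [Algebra K S] (D : Ten K)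
    (r : Fin 3 → Fin 10 → S) (h : ∀ i j k, tri D (r i) (r j) (r k) = 0) (y : Fin 3 → S) :
    tri D (∑ i, y i • r i) (∑ i, y i • r i) (∑ i, y i • r i) = 0 := by
  rw [tri_sum_left]
  refine Finset.sum_eq_zero fun i _ => ?_
  rw [tri_smul_left, tri_sum_mid]
  refine mul_eq_zero_of_right _ (Finset.sum_eq_zero fun j _ => ?_)
  rw [tri_smul_mid, tri_sum_right]
  refine mul_eq_zero_of_right _ (Finset.sum_eq_zero fun k _ => ?_)
  rw [tri_smul_right, h, mul_zero]

theorem map_row {R S : Type*} [CommRing R] [CommRing S] (f : R →+* S) (a : Idx → R) (i : Fin 3)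
    (j : Fin 10) : f (row a i j) = row (fun q => f (a q)) i j := by
  simp only [row, Pi.add_apply, map_add, bv_apply, tv]
  congr 1
  · split_ifs <;> simp
  · split_ifs <;> simp

theorem aeval_fanoIdeal {K R : Type*} [Field K] [CommRing R] [Algebra K R] (D : Ten K)
    (a : Idx → R) (h : ∀ i j k : Fin 3, tri D (row a i) (row a j) (row a k) = 0)
    (g : MvPolynomial Idx K) (hg : g ∈ fanoIdeal (cubic D)) : aeval a g = 0 := by
  have hle : fanoIdeal (cubic D) ≤ RingHom.ker (aeval a : MvPolynomial Idx K →ₐ[K] R) := by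
    refine Ideal.span_le.2 ?_
    rintro _ ⟨m, rfl⟩
    simp only [SetLike.mem_coe, RingHom.mem_ker]
    have h1 := coeff_map (aeval a : MvPolynomial Idx K →ₐ[K] R).toRingHom
      (aeval (fun j : Fin 10 => ∑ i : Fin 3, C (row X i j) * X i) (cubic D) :
      MvPolynomial (Fin 3) (MvPolynomial Idx K)) m
    refine h1.symm.trans ?_
    rw [aeval_cubic]
    have h2 := tri_map D (mapAlgHom (σ := Fin 3) (aeval a : MvPolynomial Idx K →ₐ[K] R))
      (fun j : Fin 10 => ∑ i : Fin 3, C (row (X : Idx → MvPolynomial Idx K) i j) * X i)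
      (fun j : Fin 10 => ∑ i : Fin 3, C (row (X : Idx → MvPolynomial Idx K) i j) * X i)
      (fun j : Fin 10 => ∑ i : Fin 3, C (row (X : Idx → MvPolynomial Idx K) i j) * X i)
    refine (congrArg (coeff m) h2).trans ?_
    have h3 : (fun j : Fin 10 => mapAlgHom (σ := Fin 3) (aeval a : MvPolynomial Idx K →ₐ[K] R)
        (∑ i : Fin 3, C (row (X : Idx → MvPolynomial Idx K) i j) * X i)) =
        ∑ i : Fin 3, (X i : MvPolynomial (Fin 3) R) • (fun j => C (row a i j)) := by
      funext j
      simp only [map_sum, map_mul, mapAlgHom_apply, Finset.sum_apply, Pi.smul_apply, smul_eq_mul]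
      refine Finset.sum_congr rfl fun i _ => ?_
      have h4 := map_row (aeval a : MvPolynomial Idx K →ₐ[K] R).toRingHom X i j
      have h6 : (fun q => (aeval a : MvPolynomial Idx K →ₐ[K] R).toRingHom (X q)) = a := by
        funext q
        exact aeval_X a q
      rw [h6] at h4
      rw [mul_comm]
      have h7 : (mapAlgHom (σ := Fin 3) (aeval a : MvPolynomial Idx K →ₐ[K] R)) (X i) = X i :=
        map_X _ _
      have h8 : (mapAlgHom (σ := Fin 3) (aeval a : MvPolynomial Idx K →ₐ[K] R))
          (C (row X i j)) = C (row a i j) := by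
        rw [← h4]
        exact map_C _ _
      simp only [mapAlgHom_apply] at h7 h8
      rw [h7, h8]
    rw [h3, tri_comb_zero, coeff_zero]
    intro i j k
    have h5 := tri_map D (IsScalarTower.toAlgHom K R (MvPolynomial (Fin 3) R))
      (row a i) (row a j) (row a k)
    rw [h, map_zero] at h5
    exact h5.symm
  exact hle hg

theorem aeval_eq_eval' {R : Type*} [CommRing R] (y : Fin 3 → R) (p : MvPolynomial (Fin 3) R) :
    (aeval y : MvPolynomial (Fin 3) R →ₐ[R] R) p = eval y p := by
  rw [← coe_aeval_eq_eval]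
  rfl

/-- The cubic at a combination of the rows of the generic matrix is in the ideal. -/
theorem comb_mem_fanoIdeal {K : Type*} [Field K] (D : Ten K) (y : Fin 3 → MvPolynomial Idx K) :
    tri D (∑ i, y i • row X i) (∑ i, y i • row X i) (∑ i, y i • row X i) ∈
      fanoIdeal (cubic D) := by
  set P : MvPolynomial (Fin 3) (MvPolynomial Idx K) :=
    aeval (fun j : Fin 10 => ∑ i : Fin 3, C (row X i j) * X i) (cubic D) with hP
  have h1 : eval y P ∈ fanoIdeal (cubic D) := by
    rw [eval_eq]
    exact Ideal.sum_mem _ fun m _ => Ideal.mul_mem_right _ _ (Ideal.subset_span ⟨m, rfl⟩)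
  have h2 : eval y P =
      tri D (∑ i, y i • row X i) (∑ i, y i • row X i) (∑ i, y i • row X i) := by
    have h3 := tri_map D ((aeval y : MvPolynomial (Fin 3) (MvPolynomial Idx K)
      →ₐ[MvPolynomial Idx K] MvPolynomial Idx K).restrictScalars K)
      (fun j : Fin 10 => ∑ i : Fin 3, C (row (X : Idx → MvPolynomial Idx K) i j) * X i)
      (fun j : Fin 10 => ∑ i : Fin 3, C (row (X : Idx → MvPolynomial Idx K) i j) * X i)
      (fun j : Fin 10 => ∑ i : Fin 3, C (row (X : Idx → MvPolynomial Idx K) i j) * X i)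
    have h4 : (fun j : Fin 10 => ((aeval y : MvPolynomial (Fin 3) (MvPolynomial Idx K)
        →ₐ[MvPolynomial Idx K] MvPolynomial Idx K).restrictScalars K)
        (∑ i : Fin 3, C (row (X : Idx → MvPolynomial Idx K) i j) * X i)) =
        ∑ i, y i • row X i := by
      funext j
      simp only [AlgHom.restrictScalars_apply, map_sum, map_mul, aeval_X, algHom_C,
        Finset.sum_apply, Pi.smul_apply, smul_eq_mul, Algebra.algebraMap_self, RingHom.id_apply]
      exact Finset.sum_congr rfl fun i _ => mul_comm _ _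
    rw [h4] at h3
    rw [← h3, hP, aeval_cubic, AlgHom.restrictScalars_apply, aeval_eq_eval']
  rw [← h2]
  exact h1

theorem tri_mem_fanoIdeal {K : Type*} [Field K] [CharZero K] (D : Ten K)
    (h12 : ∀ i j k, D i j k = D j i k) (h23 : ∀ i j k, D i j k = D i k j) (i j k : Fin 3) :
    tri D (row X i) (row X j) (row X k) ∈ fanoIdeal (cubic D) := by
  have key : ∀ y : Fin 3 → MvPolynomial Idx K, ∀ v : Fin 10 → MvPolynomial Idx K,
      v = ∑ i, y i • row X i → tri D v v v ∈ fanoIdeal (cubic D) := by
    rintro y v rfl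
    exact comb_mem_fanoIdeal D y
  have hs : ∀ l : Fin 3, row X l = ∑ i, (Pi.single l 1 : Fin 3 → MvPolynomial Idx K) i •
      row (X : Idx → MvPolynomial Idx K) i := by
    intro l
    rw [Finset.sum_eq_single l (fun b _ hb => by simp [hb]) (by simp)]
    simp
  set u := row (X : Idx → MvPolynomial Idx K) i with hu
  set v := row (X : Idx → MvPolynomial Idx K) j with hv
  set w := row (X : Idx → MvPolynomial Idx K) k with hw
  have hU := hs i
  have hV := hs j
  have hW := hs k
  rw [← hu] at hU
  rw [← hv] at hV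
  rw [← hw] at hW
  have h1 := key (Pi.single i 1) u hU
  have h2 := key (Pi.single j 1) v hV
  have h3 := key (Pi.single k 1) w hW
  have h4 := key (Pi.single i 1 + Pi.single j 1) (u + v) (by
    simp only [Pi.add_apply, add_smul, Finset.sum_add_distrib]; rw [← hU, ← hV])
  have h5 := key (Pi.single i 1 + Pi.single k 1) (u + w) (by
    simp only [Pi.add_apply, add_smul, Finset.sum_add_distrib]; rw [← hU, ← hW])
  have h6 := key (Pi.single j 1 + Pi.single k 1) (v + w) (by
    simp only [Pi.add_apply, add_smul, Finset.sum_add_distrib]; rw [← hV, ← hW])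
  have h7 := key (Pi.single i 1 + Pi.single j 1 + Pi.single k 1) (u + v + w) (by
    simp only [Pi.add_apply, add_smul, Finset.sum_add_distrib]; rw [← hU, ← hV, ← hW])
  have h8 : (6 : MvPolynomial Idx K) * tri D u v w =
      tri D (u + v + w) (u + v + w) (u + v + w) - tri D (u + v) (u + v) (u + v) -
      tri D (u + w) (u + w) (u + w) - tri D (v + w) (v + w) (v + w) + tri D u u u +
      tri D v v v + tri D w w w := by
    simp only [tri_add_left, tri_add_mid, tri_add_right]
    rw [tri_swap23 h23 u w v, tri_swap12 h12 v u w, tri_swap12 h12 w u v, tri_swap23 h23 v w u,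
      tri_swap23 h23 u w v, tri_swap12 h12 v u w, tri_swap12 h12 w v u, tri_swap23 h23 v w u,
      tri_swap12 h12 v u w]
    ring
  have h9 : (6 : MvPolynomial Idx K) * tri D u v w ∈ fanoIdeal (cubic D) := by
    rw [h8]
    exact Ideal.add_mem _ (Ideal.add_mem _ (Ideal.add_mem _ (Ideal.sub_mem _ (Ideal.sub_mem _
      (Ideal.sub_mem _ h7 h4) h5) h6) h1) h2) h3
  have h10 : tri D u v w = C (6 : K)⁻¹ * (6 * tri D u v w) := by
    have h11 : (C (6 : K)⁻¹ * 6 : MvPolynomial Idx K) = 1 := by
      have h12 : (6 : MvPolynomial Idx K) = C 6 := (map_ofNat C 6).symm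
      rw [h12, ← C_mul, inv_mul_cancel₀ (by norm_num), C_1]
    rw [← mul_assoc, h11, one_mul]
  rw [h10]
  exact Ideal.mul_mem_left _ _ h9

theorem fanoIdeal_C_mul_le {K : Type*} [Field K] (c : K)
    (F : MvPolynomial (Fin 10) K) : fanoIdeal (C c * F) ≤ fanoIdeal F := by
  refine Ideal.span_le.2 ?_
  rintro _ ⟨m, rfl⟩
  have h1 : coeff m (aeval (fun j : Fin 10 => ∑ i : Fin 3, C (row X i j) * X i) (C c * F) :
      MvPolynomial (Fin 3) (MvPolynomial Idx K)) =
      C c * coeff m (aeval (fun j : Fin 10 => ∑ i : Fin 3, C (row X i j) * X i) F :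
      MvPolynomial (Fin 3) (MvPolynomial Idx K)) := by
    rw [map_mul, algHom_C, IsScalarTower.algebraMap_apply K (MvPolynomial Idx K), algebraMap_eq,
      algebraMap_eq, coeff_C_mul]
  simp only [SetLike.mem_coe]
  rw [h1]
  exact Ideal.mul_mem_left _ _ (Ideal.subset_span ⟨m, rfl⟩)

theorem fanoIdeal_C_mul {K : Type*} [Field K] (c : K) (hc : c ≠ 0)
    (F : MvPolynomial (Fin 10) K) : fanoIdeal (C c * F) = fanoIdeal F := by
  refine le_antisymm (fanoIdeal_C_mul_le c F) ?_
  have h1 := fanoIdeal_C_mul_le c⁻¹ (C c * F)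
  rwa [← mul_assoc, ← C_mul, inv_mul_cancel₀ hc, C_1, one_mul] at h1

end Pool.Agent.Helper93.CY
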